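import Mathlib
import Pool.Agent.TH407.MZ.Defs
set_option autoImplicit false

/-!
# The fourth power bound for the low frequency part, in the equatorial zone
-/

namespace Pool.Agent.TH902.MZ

open MeasureTheory Set Complex
open scoped ENNReal NNReal Real ComplexConjugate
open Pool.Agent.TH407 Pool.Agent.TH407.MZ
open Pool.Agent.TH407.MV (dt)
open Pool.Agent.TH407.AR (ah aT)

lemma continuous_etz : Continuous etz := by
  unfold etz
  have := Real.smoothTransition.continuous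
  fun_prop

lemma etz_nonneg (h : ℝ) : 0 ≤ etz h :=
  mul_nonneg (Real.smoothTransition.nonneg _) (Real.smoothTransition.nonneg _)

lemma etz_zero (h : ℝ) (hh : h ∉ Icc (-1 : ℝ) 1) : etz h = 0 := by
  unfold etz
  rw [mem_Icc, not_and_or, not_le, not_le] at hh
  rcases hh with hh | hh
  · rw [Real.smoothTransition.zero_of_nonpos (x := 3 + 4 * h) (by linarith), mul_zero]
  · rw [Real.smoothTransition.zero_of_nonpos (x := 3 - 4 * h) (by linarith), zero_mul]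

lemma integrable_etz : Integrable etz :=
  continuous_etz.integrable_of_hasCompactSupport
    (HasCompactSupport.intro isCompact_Icc etz_zero)

lemma measurable_dt : Measurable (fun q : (ℝ × ℝ) × ℝ => dt q.1 q.2) := by
  unfold dt
  fun_prop

lemma measurable_KZ : Measurable (Function.uncurry KZ) := by
  have he := continuous_etz.measurable
  have h1 : StronglyMeasurable (fun q : (ℝ × ℝ) × ℝ =>
      (etz q.2 : ℂ) * cexp (-(I * ((√(1 - q.2 ^ 2) * q.1.2 + q.2 * q.1.1 : ℝ) : ℂ)))) := by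
    refine Measurable.stronglyMeasurable ?_
    fun_prop
  exact (h1.integral_prod_right' (ν := (volume : Measure ℝ))).measurable

/-- composition with a measurable function of two variables -/
lemma meas2 {α β γ δ : Type*} [MeasurableSpace α] [MeasurableSpace β] [MeasurableSpace γ]
    [MeasurableSpace δ] {F : β → γ → δ} (hF : Measurable (Function.uncurry F)) {f : α → β}
    {g : α → γ} (hf : Measurable f) (hg : Measurable g) : Measurable (fun x => F (f x) (g x)) := by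
  have h := hF.comp (hf.prodMk hg)
  exact h

/-- the formula for the low frequency part -/
lemma EZ_low (a : ℝ → ℝ → ℂ) (B T : ℝ) (hm : Measurable (Function.uncurry (ah a)))
    (hb : ∀ κ θ, ‖ah a κ θ‖ ≤ B) (X : ℝ × ℝ) (t : ℝ) :
    EZ (aT a T) X t = ((2 * π : ℝ) : ℂ)⁻¹ *
      ∫ κ in Icc (-(T / 2)) (T / 2), cexp (I * ((κ / 2 : ℝ) : ℂ)) *
        ∫ θ in Ioo (-π) π, KZ (t - κ) (dt X θ) * ah a κ θ := by
  have he := continuous_etz.measurable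
  have hsf : SFinite mZ := by
    unfold mZ
    infer_instance
  have hB : 0 ≤ B := (norm_nonneg _).trans (hb 0 0)
  have hdt : Measurable (fun θ : ℝ => dt X θ) :=
    measurable_dt.comp (measurable_const.prodMk measurable_id)
  obtain ⟨Φ, hΦ⟩ : ∃ Φ : (ℝ × ℝ) → ℝ → ℂ, ∀ p κ, Φ p κ =
    cexp (-(I * ((√(1 - (p.1 - 1 / 2) ^ 2) * dt X p.2 + (p.1 - 1 / 2) * t : ℝ) : ℂ))) *
      ((etz (p.1 - 1 / 2) : ℂ) * (cexp (I * ((κ * p.1 : ℝ) : ℂ)) * ah a κ p.2)) :=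
    ⟨_, fun _ _ => rfl⟩
  have hmΦ : Measurable (Function.uncurry Φ) := by
    have h1 := meas2 hm (measurable_snd (α := ℝ × ℝ) (β := ℝ))
      (measurable_snd.comp (measurable_fst (α := ℝ × ℝ) (β := ℝ)))
    simp only [Function.comp_apply] at h1
    have h2 : Measurable fun p : (ℝ × ℝ) × ℝ => dt X p.1.2 :=
      hdt.comp (measurable_snd.comp measurable_fst)
    show Measurable fun p : (ℝ × ℝ) × ℝ => Φ p.1 p.2
    simp only [hΦ]
    fun_prop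
  have hbd : ∀ p κ, ‖Φ p κ‖ ≤ etz (p.1 - 1 / 2) * B := by
    intro p κ
    simp only [hΦ]
    rw [norm_mul, norm_mul, norm_mul, Complex.norm_real, Real.norm_of_nonneg (etz_nonneg _)]
    have e1 : ‖cexp (-(I * ((√(1 - (p.1 - 1 / 2) ^ 2) * dt X p.2 +
        (p.1 - 1 / 2) * t : ℝ) : ℂ)))‖ = 1 := by
      rw [← mul_neg, ← Complex.ofReal_neg, mul_comm I]
      exact Complex.norm_exp_ofReal_mul_I _
    have e2 : ‖cexp (I * ((κ * p.1 : ℝ) : ℂ))‖ = 1 := by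
      rw [mul_comm I]
      exact Complex.norm_exp_ofReal_mul_I _
    rw [e1, e2, one_mul, one_mul]
    exact mul_le_mul_of_nonneg_left (hb _ _) (etz_nonneg _)
  have hshift : Integrable (fun s : ℝ => etz (s - 1 / 2)) := integrable_etz.comp_sub_right (1 / 2)
  have hmz : Integrable (fun p : ℝ × ℝ => etz (p.1 - 1 / 2) * B) mZ := by
    have h1 : Integrable (fun _ : ℝ => B) ((volume : Measure ℝ).restrict (Ioo (-π) π)) :=
      integrable_const _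
    exact hshift.mul_prod h1
  have hintκ : ∀ κ, Integrable (fun p => Φ p κ) mZ := by
    intro κ
    have h1 : Measurable fun p => Φ p κ := hmΦ.comp measurable_prodMk_right
    exact hmz.mono' h1.aestronglyMeasurable (Filter.Eventually.of_forall fun p => hbd p κ)
  have hint : Integrable (Function.uncurry Φ)
      (mZ.prod ((volume : Measure ℝ).restrict (Icc (-(T / 2)) (T / 2)))) := by
    have h1 : Integrable (fun _ : ℝ => (1 : ℝ)) (volume.restrict (Icc (-(T / 2)) (T / 2))) :=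
      integrable_const _
    have h2 := hmz.mul_prod h1
    refine h2.mono' hmΦ.aestronglyMeasurable (Filter.Eventually.of_forall fun p => ?_)
    show ‖Φ p.1 p.2‖ ≤ etz (p.1.1 - 1 / 2) * B * 1
    rw [mul_one]
    exact hbd p.1 p.2
  have hL : EZ (aT a T) X t = ((2 * π : ℝ) : ℂ)⁻¹ *
      ∫ p : ℝ × ℝ, (∫ κ in Icc (-(T / 2)) (T / 2), Φ p κ) ∂mZ := by
    unfold EZ aT
    rw [← integral_const_mul]
    refine integral_congr_ae (Filter.Eventually.of_forall fun p => ?_)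
    simp only [hΦ]
    rw [integral_const_mul, integral_const_mul]
    ring
  rw [hL, integral_integral_swap hint]
  congr 1
  refine integral_congr_ae (Filter.Eventually.of_forall fun κ => ?_)
  simp only
  have h3 := hintκ κ
  unfold mZ at h3 ⊢
  rw [integral_prod_symm _ h3, ← integral_const_mul]
  refine integral_congr_ae (Filter.Eventually.of_forall fun θ => ?_)
  simp only [hΦ]
  have h4 := integral_sub_right_eq_self (μ := (volume : Measure ℝ)) (fun h : ℝ =>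
    cexp (-(I * ((√(1 - h ^ 2) * dt X θ + h * t : ℝ) : ℂ))) *
      ((etz h : ℂ) * (cexp (I * ((κ * (h + 1 / 2) : ℝ) : ℂ)) * ah a κ θ))) (1 / 2 : ℝ)
  simp only [sub_add_cancel] at h4
  rw [h4]
  unfold KZ
  rw [← mul_assoc, ← integral_const_mul, ← integral_mul_const]
  refine integral_congr_ae (Filter.Eventually.of_forall fun h => ?_)
  simp only
  have e : cexp (-(I * ((√(1 - h ^ 2) * dt X θ + h * t : ℝ) : ℂ))) *
      cexp (I * ((κ * (h + 1 / 2) : ℝ) : ℂ)) = cexp (I * ((κ / 2 : ℝ) : ℂ)) *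
      cexp (-(I * ((√(1 - h ^ 2) * dt X θ + h * (t - κ) : ℝ) : ℂ))) := by
    rw [← Complex.exp_add, ← Complex.exp_add]
    congr 1
    push_cast
    ring
  linear_combination ((etz h : ℂ) * ah a κ θ) * e

/-- weighted Hoelder inequality -/
lemma holder_weight (r : ℝ) (K : Set ℝ) (y : ℝ → ℝ≥0∞) (hy : Measurable y) :
    (∫⁻ κ in K, y κ) ^ 4 ≤ (∫⁻ κ : ℝ, ENNReal.ofReal ((1 + ‖κ‖) ^ (-r))) ^ 3 *
      ∫⁻ κ in K, ENNReal.ofReal ((1 + ‖κ‖) ^ (3 * r)) * y κ ^ 4 := by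
  have hpos : ∀ κ : ℝ, 0 < 1 + ‖κ‖ := fun κ => by positivity
  have hpq : (4 / 3 : ℝ).HolderConjugate 4 := by
    rw [Real.holderConjugate_iff]
    norm_num
  have hmw : ∀ s : ℝ, Measurable fun κ : ℝ => ENNReal.ofReal ((1 + ‖κ‖) ^ s) := by
    intro s
    fun_prop
  have hH := ENNReal.lintegral_mul_le_Lp_mul_Lq (volume.restrict K) hpq
    (f := fun κ : ℝ => ENNReal.ofReal ((1 + ‖κ‖) ^ (-(3 * r / 4))))
    (g := fun κ : ℝ => ENNReal.ofReal ((1 + ‖κ‖) ^ (3 * r / 4)) * y κ)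
    (hmw _).aemeasurable ((hmw _).mul hy).aemeasurable
  have e1 : ∀ κ : ℝ, ((fun κ : ℝ => ENNReal.ofReal ((1 + ‖κ‖) ^ (-(3 * r / 4)))) *
      (fun κ : ℝ => ENNReal.ofReal ((1 + ‖κ‖) ^ (3 * r / 4)) * y κ)) κ = y κ := by
    intro κ
    simp only [Pi.mul_apply]
    rw [← mul_assoc, ← ENNReal.ofReal_mul (by positivity), ← Real.rpow_add (hpos κ)]
    simp
  have e2 : ∀ κ : ℝ, ENNReal.ofReal ((1 + ‖κ‖) ^ (-(3 * r / 4))) ^ (4 / 3 : ℝ) =
      ENNReal.ofReal ((1 + ‖κ‖) ^ (-r)) := by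
    intro κ
    rw [ENNReal.ofReal_rpow_of_nonneg (by positivity) (by norm_num), ← Real.rpow_mul (hpos κ).le]
    congr 2
    ring
  have e3 : ∀ κ : ℝ, (ENNReal.ofReal ((1 + ‖κ‖) ^ (3 * r / 4)) * y κ) ^ (4 : ℝ) =
      ENNReal.ofReal ((1 + ‖κ‖) ^ (3 * r)) * y κ ^ 4 := by
    intro κ
    rw [ENNReal.mul_rpow_of_nonneg _ _ (by norm_num),
      ENNReal.ofReal_rpow_of_nonneg (by positivity) (by norm_num), ← Real.rpow_mul (hpos κ).le]
    congr 1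
    · congr 2
      ring
    · norm_cast
  simp only [e1, e2, e3] at hH
  have hle : ∫⁻ κ in K, ENNReal.ofReal ((1 + ‖κ‖) ^ (-r)) ≤
      ∫⁻ κ : ℝ, ENNReal.ofReal ((1 + ‖κ‖) ^ (-r)) := setLIntegral_le_lintegral _ _
  calc (∫⁻ κ in K, y κ) ^ 4
      ≤ ((∫⁻ κ in K, ENNReal.ofReal ((1 + ‖κ‖) ^ (-r))) ^ (1 / (4 / 3) : ℝ) *
        (∫⁻ κ in K, ENNReal.ofReal ((1 + ‖κ‖) ^ (3 * r)) * y κ ^ 4) ^ (1 / 4 : ℝ)) ^ 4 := by
        gcongr
    _ = (∫⁻ κ in K, ENNReal.ofReal ((1 + ‖κ‖) ^ (-r))) ^ 3 *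
        ∫⁻ κ in K, ENNReal.ofReal ((1 + ‖κ‖) ^ (3 * r)) * y κ ^ 4 := by
        rw [mul_pow, ← ENNReal.rpow_natCast, ← ENNReal.rpow_natCast (_ ^ (1 / 4 : ℝ)),
          ← ENNReal.rpow_mul, ← ENNReal.rpow_mul]
        have a1 : (1 / (4 / 3) : ℝ) * ((4 : ℕ) : ℝ) = ((3 : ℕ) : ℝ) := by norm_num
        have a2 : (1 / 4 : ℝ) * ((4 : ℕ) : ℝ) = 1 := by norm_num
        rw [a1, a2, ENNReal.rpow_natCast, ENNReal.rpow_one]
    _ ≤ _ := by gcongr

/-- translation of the shells -/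
lemma shell_shift (f : (ℝ × ℝ) × ℝ → ℝ≥0∞) (l κ : ℝ) (hκ : |κ| ≤ l / 4) :
    ∫⁻ ξ in {ξ : (ℝ × ℝ) × ℝ | l ≤ nz ξ ∧ nz ξ ≤ 2 * l}, f (ξ.1, ξ.2 - κ) ≤
      ∫⁻ ξ in {ξ : (ℝ × ℝ) × ℝ | l / 2 ≤ nz ξ ∧ nz ξ ≤ 4 * l}, f ξ := by
  have hnz : Continuous nz := by
    unfold nz
    fun_prop
  have hmS : MeasurableSet {ξ : (ℝ × ℝ) × ℝ | l ≤ nz ξ ∧ nz ξ ≤ 2 * l} :=
    (measurableSet_le measurable_const hnz.measurable).inter
      (measurableSet_le hnz.measurable measurable_const)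
  have hmS' : MeasurableSet {ξ : (ℝ × ℝ) × ℝ | l / 2 ≤ nz ξ ∧ nz ξ ≤ 4 * l} :=
    (measurableSet_le measurable_const hnz.measurable).inter
      (measurableSet_le hnz.measurable measurable_const)
  have hinv : (volume : Measure ((ℝ × ℝ) × ℝ)).IsAddRightInvariant :=
    (inferInstance : ((volume : Measure (ℝ × ℝ)).prod (volume : Measure ℝ)).IsAddRightInvariant)
  rw [← lintegral_indicator hmS, ← lintegral_indicator hmS']
  rw [← lintegral_sub_right_eq_self (μ := (volume : Measure ((ℝ × ℝ) × ℝ)))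
    ({ξ : (ℝ × ℝ) × ℝ | l / 2 ≤ nz ξ ∧ nz ξ ≤ 4 * l}.indicator fun ξ => f ξ) ((0, 0), κ)]
  refine lintegral_mono fun ξ => ?_
  by_cases hξ : ξ ∈ {ξ : (ℝ × ℝ) × ℝ | l ≤ nz ξ ∧ nz ξ ≤ 2 * l}
  · have hξ' : ξ - ((0, 0), κ) ∈ {ξ : (ℝ × ℝ) × ℝ | l / 2 ≤ nz ξ ∧ nz ξ ≤ 4 * l} := by
      obtain ⟨h1, h2⟩ := hξ
      have h3 : nz (ξ - ((0, 0), κ)) = 1 + |ξ.1.1| + |ξ.1.2| + |ξ.2 - κ| := by
        unfold nz
        simp
      have h4 := abs_sub_abs_le_abs_sub ξ.2 κ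
      have h5 := abs_sub ξ.2 κ
      have h6 := abs_nonneg κ
      unfold nz at h1 h2
      refine ⟨?_, ?_⟩
      · rw [h3]; linarith
      · rw [h3]; linarith
    rw [indicator_of_mem hξ, indicator_of_mem hξ']
    have h7 : ξ - ((0, 0), κ) = (ξ.1, ξ.2 - κ) := by
      ext <;> simp
    rw [h7]
  · rw [indicator_of_notMem hξ]
    exact zero_le

theorem lowZ_of (h9 : AllZ) (hG : Pool.Agent.TH407.AR.FourierFacts) : LowZ := by
  intro δ hδ hδ2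
  obtain ⟨C1, hC1⟩ := h9 (δ / 2) (by positivity) (by linarith)
  set r : ℝ := 1 + δ / 8 with hr
  have hJ : (∫⁻ κ : ℝ, ENNReal.ofReal ((1 + ‖κ‖) ^ (-r))) < ∞ :=
    finite_integral_one_add_norm (μ := volume) (by simp [hr]; positivity)
  set J : ℝ≥0∞ := ∫⁻ κ : ℝ, ENNReal.ofReal ((1 + ‖κ‖) ^ (-r)) with hJdef
  refine ⟨162 * C1 * J.toNNReal ^ 4, ?_⟩
  intro a M B ha hMB l hl
  obtain ⟨hm, hb, -⟩ := hG a M ha
  have he := continuous_etz.measurable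
  have hl0 : 0 < l := by linarith
  set K : Set ℝ := Icc (-(l / 2 / 2)) (l / 2 / 2) with hK
  have hwpos : ∀ κ : ℝ, 0 < 1 + |κ| := fun κ => by positivity
  -- the norm bound
  have hb' : ∀ κ θ, ‖ah a κ θ‖ₑ ≤ ((B * Real.toNNReal (3 / (1 + |κ|)) : ℝ≥0) : ℝ≥0∞) := by
    intro κ θ
    refine (hb κ θ).trans ?_
    rw [ENNReal.coe_mul]
    show (M θ : ℝ≥0∞) * ENNReal.ofReal (3 / (1 + |κ|)) ≤ B * ENNReal.ofReal (3 / (1 + |κ|))
    gcongr
    exact hMB θ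
  have hb'' : ∀ κ θ, ‖ah a κ θ‖ ≤ (B : ℝ) * 3 := by
    intro κ θ
    have h := hb' κ θ
    rw [enorm_le_coe] at h
    have h2 : ‖ah a κ θ‖ ≤ (B : ℝ) * (3 / (1 + |κ|)) := by
      have h3 : ((B * Real.toNNReal (3 / (1 + |κ|)) : ℝ≥0) : ℝ) = B * (3 / (1 + |κ|)) := by
        rw [NNReal.coe_mul, Real.coe_toNNReal _ (by positivity)]
      rw [← h3]
      exact_mod_cast h
    refine h2.trans ?_
    gcongr
    rw [div_le_iff₀ (hwpos κ)]
    nlinarith [abs_nonneg κ]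
  -- joint measurability
  obtain ⟨Y, hY⟩ : ∃ Y : ((ℝ × ℝ) × ℝ) → ℝ → ℂ, ∀ ξ κ, Y ξ κ =
      ∫ θ in Ioo (-π) π, KZ (ξ.2 - κ) (dt ξ.1 θ) * ah a κ θ := ⟨_, fun _ _ => rfl⟩
  have hmY : Measurable (Function.uncurry Y) := by
    have h1 : StronglyMeasurable (fun q : (((ℝ × ℝ) × ℝ) × ℝ) × ℝ =>
        KZ (q.1.1.2 - q.1.2) (dt q.1.1.1 q.2) * ah a q.1.2 q.2) := by
      refine Measurable.stronglyMeasurable ?_
      have k1 : Measurable fun q : (((ℝ × ℝ) × ℝ) × ℝ) × ℝ => q.1.2 := by fun_prop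
      have k2 : Measurable fun q : (((ℝ × ℝ) × ℝ) × ℝ) × ℝ => q.2 := by fun_prop
      have k3 : Measurable fun q : (((ℝ × ℝ) × ℝ) × ℝ) × ℝ => q.1.1.1 := by fun_prop
      have h2 := meas2 hm k1 k2
      have h3 := meas2 (F := dt) measurable_dt k3 k2
      have h4 : Measurable fun q : (((ℝ × ℝ) × ℝ) × ℝ) × ℝ => q.1.1.2 - q.1.2 := by fun_prop
      have h5 := meas2 measurable_KZ h4 h3
      exact h5.mul h2
    have h5 := (h1.integral_prod_right'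
      (ν := (volume : Measure ℝ).restrict (Ioo (-π) π))).measurable
    have h6 : Function.uncurry Y = fun p : ((ℝ × ℝ) × ℝ) × ℝ => ∫ θ in Ioo (-π) π,
        KZ (p.1.2 - p.2) (dt p.1.1 θ) * ah a p.2 θ := by
      funext p
      exact hY p.1 p.2
    rw [h6]
    exact h5
  have hmYe : Measurable (Function.uncurry fun ξ κ => ‖Y ξ κ‖ₑ) := hmY.enorm
  -- pointwise bound
  have hpt : ∀ ξ : (ℝ × ℝ) × ℝ, ‖EZ (aT a (l / 2)) ξ.1 ξ.2‖ₑ ^ 4 ≤
      J ^ 3 * ∫⁻ κ in K, ENNReal.ofReal ((1 + ‖κ‖) ^ (3 * r)) * ‖Y ξ κ‖ₑ ^ 4 := by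
    intro ξ
    have h1 : ‖EZ (aT a (l / 2)) ξ.1 ξ.2‖ₑ ≤ ∫⁻ κ in K, ‖Y ξ κ‖ₑ := by
      rw [EZ_low a ((B : ℝ) * 3) (l / 2) hm hb'' ξ.1 ξ.2, enorm_mul]
      simp only [← hY]
      have h7 : ∀ κ : ℝ, ‖cexp (I * ((κ / 2 : ℝ) : ℂ)) * Y ξ κ‖ₑ = ‖Y ξ κ‖ₑ := by
        intro κ
        rw [enorm_mul, ← ofReal_norm (cexp _), mul_comm I, Complex.norm_exp_ofReal_mul_I,
          ENNReal.ofReal_one, one_mul]
      calc ‖((2 * π : ℝ) : ℂ)⁻¹‖ₑ * ‖∫ κ in K, cexp (I * ((κ / 2 : ℝ) : ℂ)) * Y ξ κ‖ₑ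
          ≤ 1 * ∫⁻ κ in K, ‖cexp (I * ((κ / 2 : ℝ) : ℂ)) * Y ξ κ‖ₑ := by
            gcongr
            · rw [← ofReal_norm, norm_inv, Complex.norm_real,
                Real.norm_of_nonneg (by positivity)]
              refine ENNReal.ofReal_le_one.2 ?_
              have := Real.pi_gt_three
              exact inv_le_one_of_one_le₀ (by linarith)
            · exact enorm_integral_le_lintegral_enorm _
        _ = _ := by rw [one_mul]; simp only [h7]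
    have h2 : Measurable fun κ => ‖Y ξ κ‖ₑ := hmYe.comp measurable_prodMk_left
    calc ‖EZ (aT a (l / 2)) ξ.1 ξ.2‖ₑ ^ 4 ≤ (∫⁻ κ in K, ‖Y ξ κ‖ₑ) ^ 4 := by gcongr
      _ ≤ _ := holder_weight r K _ h2
  -- the bound for fixed `κ`
  set S : Set ((ℝ × ℝ) × ℝ) := {ξ : (ℝ × ℝ) × ℝ | l ≤ nz ξ ∧ nz ξ ≤ 2 * l} with hS
  set I2 : ℝ≥0∞ := ∫⁻ θ in Ioo (-π) π, (M θ : ℝ≥0∞) ^ 2 with hI2
  have hκ : ∀ κ ∈ K, ENNReal.ofReal ((1 + ‖κ‖) ^ (3 * r)) * ∫⁻ ξ in S, ‖Y ξ κ‖ₑ ^ 4 ≤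
      ENNReal.ofReal ((1 + ‖κ‖) ^ (-r)) *
        (162 * C1 * ENNReal.ofReal (l ^ (-1 + δ)) * B ^ 2 * I2) := by
    intro κ hκ
    have hκT : |κ| ≤ l / 4 := by
      have := abs_le.2 hκ
      linarith
    have hmκ : Measurable (ah a κ) := hm.comp (measurable_const.prodMk measurable_id)
    have h1 := hC1 (ah a κ) (B * Real.toNNReal (3 / (1 + |κ|))) hmκ (hb' κ) l hl
    have h0 : ∫⁻ ξ in S, ‖Y ξ κ‖ₑ ^ 4 ≤ ∫⁻ ξ in {ξ : (ℝ × ℝ) × ℝ | l / 2 ≤ nz ξ ∧ nz ξ ≤ 4 * l},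
        ‖∫ θ in Ioo (-π) π, KZ ξ.2 (dt ξ.1 θ) * ah a κ θ‖ₑ ^ 4 := by
      have h8 := shell_shift (fun ξ => ‖∫ θ in Ioo (-π) π, KZ ξ.2 (dt ξ.1 θ) * ah a κ θ‖ₑ ^ 4)
        l κ hκT
      simp only [← hY] at h8
      exact h8
    have h2 : ∫⁻ θ in Ioo (-π) π, ‖ah a κ θ‖ₑ ^ 2 ≤ ENNReal.ofReal (3 / (1 + |κ|)) ^ 2 * I2 := by
      rw [hI2, ← lintegral_const_mul _ (by have := ha.mM; fun_prop)]
      refine lintegral_mono fun θ => ?_
      calc ‖ah a κ θ‖ₑ ^ 2 ≤ (M θ * ENNReal.ofReal (3 / (1 + |κ|))) ^ 2 := by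
            gcongr
            exact hb κ θ
        _ = _ := by rw [mul_pow, mul_comm]
    have e0 : ((Real.toNNReal (3 / (1 + |κ|)) : ℝ≥0) : ℝ≥0∞) = ENNReal.ofReal (3 / (1 + |κ|)) := rfl
    rw [ENNReal.coe_mul, e0] at h1
    -- the real inequality
    have hreal : (1 + |κ|) ^ (3 * r) * (l ^ (-1 + δ / 2) *
        ((3 / (1 + |κ|)) ^ 2 * (3 / (1 + |κ|)) ^ 2)) ≤ (1 + |κ|) ^ (-r) * (162 * l ^ (-1 + δ)) := by
      have hw := hwpos κ
      have a1 : (3 / (1 + |κ|)) ^ 2 * (3 / (1 + |κ|)) ^ 2 = 81 * (1 + |κ|) ^ (-4 : ℝ) := by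
        rw [Real.rpow_neg hw.le]
        have : (1 + |κ|) ^ (4 : ℝ) = (1 + |κ|) ^ 4 := by norm_cast
        rw [this]
        field_simp
        norm_num
      have a3 : (1 + |κ|) ^ (δ / 2) ≤ 2 * l ^ (δ / 2) := by
        have h5 : (1 + |κ|) ^ (δ / 2) ≤ (2 * l) ^ (δ / 2) :=
          Real.rpow_le_rpow hw.le (by linarith) (by positivity)
        refine h5.trans ?_
        rw [Real.mul_rpow (by norm_num) hl0.le]
        gcongr
        calc (2 : ℝ) ^ (δ / 2) ≤ (2 : ℝ) ^ (1 : ℝ) :=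
              Real.rpow_le_rpow_of_exponent_le (by norm_num) (by linarith)
          _ = 2 := by norm_num
      have a5 : (1 + |κ|) ^ (3 * r) * (1 + |κ|) ^ (-4 : ℝ) = (1 + |κ|) ^ (-r) * (1 + |κ|) ^ (δ / 2) := by
        rw [← Real.rpow_add hw, ← Real.rpow_add hw]
        congr 1
        rw [hr]; ring
      calc (1 + |κ|) ^ (3 * r) * (l ^ (-1 + δ / 2) *
            ((3 / (1 + |κ|)) ^ 2 * (3 / (1 + |κ|)) ^ 2))
          = 81 * ((1 + |κ|) ^ (3 * r) * (1 + |κ|) ^ (-4 : ℝ)) * l ^ (-1 + δ / 2) := by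
            rw [a1]; ring
        _ = 81 * ((1 + |κ|) ^ (-r) * (1 + |κ|) ^ (δ / 2)) * l ^ (-1 + δ / 2) := by
            rw [a5]
        _ ≤ 81 * ((1 + |κ|) ^ (-r) * (2 * l ^ (δ / 2))) * l ^ (-1 + δ / 2) := by
            gcongr
        _ = 162 * (1 + |κ|) ^ (-r) * (l ^ (δ / 2) * l ^ (-1 + δ / 2)) := by ring
        _ = 162 * (1 + |κ|) ^ (-r) * l ^ (-1 + δ) := by
            rw [← Real.rpow_add hl0]
            congr 2
            ring
        _ = _ := by ring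
    calc ENNReal.ofReal ((1 + ‖κ‖) ^ (3 * r)) * ∫⁻ ξ in S, ‖Y ξ κ‖ₑ ^ 4
        ≤ ENNReal.ofReal ((1 + |κ|) ^ (3 * r)) * (C1 * ENNReal.ofReal (l ^ (-1 + δ / 2)) *
          (B * ENNReal.ofReal (3 / (1 + |κ|))) ^ 2 * ∫⁻ θ in Ioo (-π) π, ‖ah a κ θ‖ₑ ^ 2) := by
          rw [Real.norm_eq_abs]
          gcongr
          exact h0.trans h1
      _ ≤ ENNReal.ofReal ((1 + |κ|) ^ (3 * r)) * (C1 * ENNReal.ofReal (l ^ (-1 + δ / 2)) *
          (B * ENNReal.ofReal (3 / (1 + |κ|))) ^ 2 * (ENNReal.ofReal (3 / (1 + |κ|)) ^ 2 * I2)) := by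
          gcongr
      _ = (ENNReal.ofReal ((1 + |κ|) ^ (3 * r)) * (ENNReal.ofReal (l ^ (-1 + δ / 2)) *
          (ENNReal.ofReal (3 / (1 + |κ|)) ^ 2 * ENNReal.ofReal (3 / (1 + |κ|)) ^ 2))) *
            (C1 * B ^ 2 * I2) := by ring
      _ = ENNReal.ofReal ((1 + |κ|) ^ (3 * r) * (l ^ (-1 + δ / 2) *
          ((3 / (1 + |κ|)) ^ 2 * (3 / (1 + |κ|)) ^ 2))) * (C1 * B ^ 2 * I2) := by
          rw [ENNReal.ofReal_mul (by positivity), ENNReal.ofReal_mul (by positivity),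
            ENNReal.ofReal_mul (by positivity), ENNReal.ofReal_pow (by positivity)]
      _ ≤ ENNReal.ofReal ((1 + |κ|) ^ (-r) * (162 * l ^ (-1 + δ))) * (C1 * B ^ 2 * I2) := by
          gcongr
      _ = _ := by
          rw [Real.norm_eq_abs, ENNReal.ofReal_mul (by positivity),
            ENNReal.ofReal_mul (by norm_num)]
          have : ENNReal.ofReal 162 = 162 := by norm_num
          rw [this]
          ring
  calc ∫⁻ ξ in S, ‖EZ (aT a (l / 2)) ξ.1 ξ.2‖ₑ ^ 4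
      ≤ ∫⁻ ξ in S, J ^ 3 * ∫⁻ κ in K, ENNReal.ofReal ((1 + ‖κ‖) ^ (3 * r)) * ‖Y ξ κ‖ₑ ^ 4 :=
        lintegral_mono hpt
    _ = J ^ 3 * ∫⁻ ξ in S, ∫⁻ κ in K, ENNReal.ofReal ((1 + ‖κ‖) ^ (3 * r)) * ‖Y ξ κ‖ₑ ^ 4 :=
        lintegral_const_mul' _ _ (ENNReal.pow_ne_top hJ.ne)
    _ = J ^ 3 * ∫⁻ κ in K, ∫⁻ ξ in S, ENNReal.ofReal ((1 + ‖κ‖) ^ (3 * r)) * ‖Y ξ κ‖ₑ ^ 4 := by
        rw [lintegral_lintegral_swap]
        refine Measurable.aemeasurable ?_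
        show Measurable fun p : ((ℝ × ℝ) × ℝ) × ℝ =>
          ENNReal.ofReal ((1 + ‖p.2‖) ^ (3 * r)) * ‖Y p.1 p.2‖ₑ ^ 4
        have h1 : Measurable fun p : ((ℝ × ℝ) × ℝ) × ℝ => ‖Y p.1 p.2‖ₑ := hmYe
        fun_prop
    _ = J ^ 3 * ∫⁻ κ in K, ENNReal.ofReal ((1 + ‖κ‖) ^ (3 * r)) * ∫⁻ ξ in S, ‖Y ξ κ‖ₑ ^ 4 := by
        congr 1
        refine lintegral_congr fun κ => ?_
        rw [lintegral_const_mul' _ _ ENNReal.ofReal_ne_top]
    _ ≤ J ^ 3 * ∫⁻ κ in K, ENNReal.ofReal ((1 + ‖κ‖) ^ (-r)) *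
          (162 * C1 * ENNReal.ofReal (l ^ (-1 + δ)) * B ^ 2 * I2) := by
        gcongr 1
        exact setLIntegral_mono' measurableSet_Icc hκ
    _ = J ^ 3 * ((∫⁻ κ in K, ENNReal.ofReal ((1 + ‖κ‖) ^ (-r))) *
          (162 * C1 * ENNReal.ofReal (l ^ (-1 + δ)) * B ^ 2 * I2)) := by
        rw [lintegral_mul_const]
        fun_prop
    _ ≤ J ^ 3 * (J * (162 * C1 * ENNReal.ofReal (l ^ (-1 + δ)) * B ^ 2 * I2)) := by
        gcongr
        exact setLIntegral_le_lintegral _ _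
    _ = _ := by
        have hJc : ((J.toNNReal : ℝ≥0) : ℝ≥0∞) = J := ENNReal.coe_toNNReal hJ.ne
        push_cast
        rw [hJc]
        ring

end Pool.Agent.TH902.MZ
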